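import Mathlib

set_option autoImplicit false

/-! # The partial sums of `μ(n)` and of `μ(n)/n`: the exact identity -/

namespace Pool.Agent.R754.LM

open MeasureTheory Filter Topology Set

/-- the Moebius function -/
noncomputable def mu (n : ℕ) : ℝ := ((ArithmeticFunction.moebius n : ℤ) : ℝ)

/-- the Mertens function -/
noncomputable def M (u : ℝ) : ℝ := ∑ n ∈ Finset.Icc 1 ⌊u⌋₊, mu n

/-- `∑_{n ≤ u} μ(n)/n` -/
noncomputable def m (u : ℝ) : ℝ := ∑ n ∈ Finset.Icc 1 ⌊u⌋₊, mu n / n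

/-- `x m(x) - M(x)` -/
noncomputable def Y (x : ℝ) : ℝ := x * m x - M x

lemma abs_mu (n : ℕ) : |mu n| ≤ 1 := by
  unfold mu
  exact_mod_cast ArithmeticFunction.abs_moebius_le_one

lemma abs_M {u : ℝ} (hu : 0 ≤ u) : |M u| ≤ u := by
  unfold M
  calc |∑ n ∈ Finset.Icc 1 ⌊u⌋₊, mu n| ≤ ∑ n ∈ Finset.Icc 1 ⌊u⌋₊, |mu n| := Finset.abs_sum_le_sum_abs _ _
    _ ≤ ∑ n ∈ Finset.Icc 1 ⌊u⌋₊, 1 := Finset.sum_le_sum fun n _ => abs_mu n
    _ = ⌊u⌋₊ := by simp
    _ ≤ u := Nat.floor_le hu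

lemma abs_m {u : ℝ} (hu : 0 ≤ u) : |m u| ≤ u := by
  unfold m
  calc |∑ n ∈ Finset.Icc 1 ⌊u⌋₊, mu n / n| ≤ ∑ n ∈ Finset.Icc 1 ⌊u⌋₊, |mu n / n| :=
        Finset.abs_sum_le_sum_abs _ _
    _ ≤ ∑ n ∈ Finset.Icc 1 ⌊u⌋₊, 1 := by
        refine Finset.sum_le_sum fun n hn => ?_
        have h1 : (1 : ℝ) ≤ n := by exact_mod_cast (Finset.mem_Icc.1 hn).1
        rw [abs_div, Nat.abs_cast, div_le_one (by linarith)]
        exact (abs_mu n).trans h1
    _ = ⌊u⌋₊ := by simp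
    _ ≤ u := Nat.floor_le hu

lemma M_meas : Measurable M := by
  have e : M = (fun n : ℕ => ∑ k ∈ Finset.Icc 1 n, mu k) ∘ fun y : ℝ => ⌊y⌋₊ := rfl
  rw [e]
  exact (measurable_of_countable _).comp Nat.measurable_floor

lemma m_meas : Measurable m := by
  have e : m = (fun n : ℕ => ∑ k ∈ Finset.Icc 1 n, mu k / k) ∘ fun y : ℝ => ⌊y⌋₊ := rfl
  rw [e]
  exact (measurable_of_countable _).comp Nat.measurable_floor

lemma Y_eq {x : ℝ} {N : ℕ} (hx : 0 ≤ x) (hN : ⌊x⌋₊ ≤ N) :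
    Y x = ∑ n ∈ Finset.Icc 1 N, mu n * max (x / n - 1) 0 := by
  have h1 : ∑ n ∈ Finset.Icc 1 N, mu n * max (x / n - 1) 0 =
      ∑ n ∈ Finset.Icc 1 ⌊x⌋₊, mu n * max (x / n - 1) 0 := by
    symm
    apply Finset.sum_subset (Finset.Icc_subset_Icc_right hN)
    intro n hn hn2
    rw [Finset.mem_Icc] at hn hn2
    have h2 : ⌊x⌋₊ < n := by
      by_contra h
      exact hn2 ⟨hn.1, by omega⟩
    have h3 : x < n := (Nat.floor_lt hx).1 h2
    have h4 : (0 : ℝ) < n := by exact_mod_cast hn.1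
    have h5 : x / n - 1 ≤ 0 := by
      rw [sub_nonpos, div_le_one h4]
      exact h3.le
    rw [max_eq_right h5, mul_zero]
  rw [h1]
  unfold Y m M
  rw [Finset.mul_sum, ← Finset.sum_sub_distrib]
  refine Finset.sum_congr rfl fun n hn => ?_
  rw [Finset.mem_Icc] at hn
  have h4 : (0 : ℝ) < n := by exact_mod_cast hn.1
  have h5 : 0 ≤ x / n - 1 := by
    rw [sub_nonneg, one_le_div h4]
    exact (Nat.cast_le.2 hn.2).trans (Nat.floor_le hx)
  rw [max_eq_left h5]
  ring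

lemma Y_cont {a b : ℝ} (ha : 0 ≤ a) : ContinuousOn Y (Icc a b) := by
  have h1 : Continuous fun x : ℝ => ∑ n ∈ Finset.Icc 1 ⌊b⌋₊, mu n * max (x / n - 1) 0 := by
    refine continuous_finsetSum _ fun n _ => ?_
    fun_prop
  refine h1.continuousOn.congr fun x hx => ?_
  exact Y_eq (ha.trans hx.1) (Nat.floor_le_floor hx.2)

lemma floor_right {x y : ℝ} (hx : 0 ≤ x) (h1 : x ≤ y) (h2 : y < (⌊x⌋₊ : ℝ) + 1) : ⌊y⌋₊ = ⌊x⌋₊ := by
  rw [Nat.floor_eq_iff (hx.trans h1)]
  exact ⟨(Nat.floor_le hx).trans h1, h2⟩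

lemma Y_right {x : ℝ} (hx : 0 ≤ x) : HasDerivWithinAt Y (m x) (Ioi x) x := by
  have h1 : HasDerivWithinAt (fun y : ℝ => y * m x - M x) (m x) (Ioi x) x := by
    have h2 := ((hasDerivAt_id x).mul_const (m x)).sub_const (M x)
    rw [one_mul] at h2
    exact h2.hasDerivWithinAt
  refine h1.congr_of_eventuallyEq ?_ rfl
  have h3 : Ioo x ((⌊x⌋₊ : ℝ) + 1) ∈ 𝓝[>] x := Ioo_mem_nhdsGT (Nat.lt_floor_add_one x)
  filter_upwards [h3] with y hy
  unfold Y m M
  rw [floor_right hx hy.1.le hy.2]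

lemma int_of_bdd {F : ℝ → ℝ} (hF : Measurable F) {a b B : ℝ} (hab : a ≤ b) (hB : ∀ u ∈ Icc a b, |F u| ≤ B) :
    IntervalIntegrable F volume a b := by
  rw [intervalIntegrable_iff_integrableOn_Ioc_of_le hab]
  refine Integrable.mono' (g := fun _ => B) (integrableOn_const (by simp)) hF.aestronglyMeasurable ?_
  refine (ae_restrict_mem measurableSet_Ioc).mono fun v hv => ?_
  rw [Real.norm_eq_abs]
  exact hB v ⟨hv.1.le, hv.2⟩

lemma m_sq_int {a b : ℝ} (ha : 0 ≤ a) (hab : a ≤ b) : IntervalIntegrable (fun u => m u ^ 2) volume a b := by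
  refine int_of_bdd (F := fun u => m u ^ 2) (m_meas.pow_const 2) hab (B := b ^ 2) fun u hu => ?_
  rw [abs_pow]
  have := abs_m (ha.trans hu.1)
  have h2 := hu.2
  gcongr
  linarith

lemma M_sq_int {a b : ℝ} (ha : 0 < a) (hab : a ≤ b) :
    IntervalIntegrable (fun u => (M u / u) ^ 2) volume a b := by
  refine int_of_bdd (F := fun u => (M u / u) ^ 2) ((M_meas.div measurable_id).pow_const 2) hab (B := 1) fun u hu => ?_
  have hu0 : 0 < u := ha.trans_le hu.1
  rw [abs_pow, abs_div, abs_of_pos hu0]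
  have h1 : |M u| / u ≤ 1 := by
    rw [div_le_one hu0]
    exact abs_M hu0.le
  exact pow_le_one₀ (by positivity) h1

lemma M_int {a b : ℝ} (ha : 0 < a) (hab : a ≤ b) :
    IntervalIntegrable (fun u => M u / u ^ 2) volume a b := by
  refine int_of_bdd (F := fun u => M u / u ^ 2) (M_meas.div (measurable_id.pow_const 2)) hab (B := 1 / a) fun u hu => ?_
  have hu0 : 0 < u := ha.trans_le hu.1
  rw [abs_div, abs_of_pos (by positivity : 0 < u ^ 2), div_le_div_iff₀ (by positivity) ha, one_mul]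
  have h1 := abs_M hu0.le
  have h2 := hu.1
  nlinarith [abs_nonneg (M u)]

lemma M_abs_int {a b : ℝ} (ha : 0 < a) (hab : a ≤ b) :
    IntervalIntegrable (fun u => |M u| / u ^ 2) volume a b := by
  have h := (M_int ha hab).abs
  have e : (fun u => |M u / u ^ 2|) = fun u => |M u| / u ^ 2 := by
    funext u
    rw [abs_div, abs_of_nonneg (sq_nonneg u)]
  rwa [e] at h

/-- the exact identity -/
theorem energy {a b : ℝ} (ha : 0 < a) (hab : a ≤ b) :
    (∫ u in a..b, m u ^ 2) = (∫ u in a..b, (M u / u) ^ 2) + (Y b ^ 2 / b - Y a ^ 2 / a) := by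
  have h1 : ∫ u in a..b, (m u ^ 2 - (M u / u) ^ 2) = Y b ^ 2 / b - Y a ^ 2 / a := by
    apply intervalIntegral.integral_eq_sub_of_hasDeriv_right_of_le (f := fun x => Y x ^ 2 / x) hab
    · refine ContinuousOn.div ((Y_cont ha.le).pow 2) continuousOn_id fun x hx => ?_
      exact (ha.trans_le hx.1).ne'
    · intro x hx
      have hx0 : 0 < x := ha.trans hx.1
      have h2 := ((Y_right hx0.le).pow 2).div ((hasDerivAt_id x).hasDerivWithinAt) hx0.ne'
      refine h2.congr_deriv ?_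
      simp only [id, Pi.pow_apply]
      unfold Y
      field_simp
      ring
    · exact (m_sq_int ha.le hab).sub (M_sq_int ha hab)
  rw [intervalIntegral.integral_sub (m_sq_int ha.le hab) (M_sq_int ha hab)] at h1
  linarith

/-- `T(x) = Y(x)/x` -/
theorem T_diff {a b : ℝ} (ha : 0 < a) (hab : a ≤ b) : ∫ u in a..b, M u / u ^ 2 = Y b / b - Y a / a := by
  apply intervalIntegral.integral_eq_sub_of_hasDeriv_right_of_le (f := fun x => Y x / x) hab
  · refine ContinuousOn.div (Y_cont ha.le) continuousOn_id fun x hx => ?_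
    exact (ha.trans_le hx.1).ne'
  · intro x hx
    have hx0 : 0 < x := ha.trans hx.1
    have h2 := (Y_right hx0.le).div ((hasDerivAt_id x).hasDerivWithinAt) hx0.ne'
    refine h2.congr_deriv ?_
    simp only [id]
    unfold Y
    field_simp
    ring
  · exact M_int ha hab

lemma Y_one : Y 1 = 0 := by
  unfold Y m M mu
  simp

end Pool.Agent.R754.LM
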