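import Pool.Agent.R754.LM.A

set_option autoImplicit false

/-! # Doubling argument -/

namespace Pool.Agent.R754.LM

open MeasureTheory Filter Topology Set

/-- `∫_a^b (M(u)/u)² du` -/
noncomputable def I2 (a b : ℝ) : ℝ := ∫ u in a..b, (M u / u) ^ 2

/-- `∫_a^{2a} |M(u)| u^{-2} du` -/
noncomputable def J (a : ℝ) : ℝ := ∫ u in a..(2 * a), |M u| / u ^ 2

lemma int_inv_sq {a : ℝ} (ha : 0 < a) : ∫ u in a..(2 * a), 1 / u ^ 2 = 1 / (2 * a) := by
  have hab : a ≤ 2 * a := by linarith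
  have h1 : ∫ u in a..(2 * a), 1 / u ^ 2 = (-(1 / (2 * a))) - (-(1 / a)) := by
    apply intervalIntegral.integral_eq_sub_of_hasDerivAt (f := fun x : ℝ => -(1 / x))
    · intro x hx
      rw [uIcc_of_le hab] at hx
      have hx0 : x ≠ 0 := (ha.trans_le hx.1).ne'
      have := ((hasDerivAt_id x).fun_inv hx0).neg
      simp only [id] at this
      have e : (fun x : ℝ => -(1 / x)) = fun x : ℝ => -(x⁻¹) := by
        funext y
        rw [one_div]
      rw [e]
      refine this.congr_deriv ?_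
      field_simp
    · apply ContinuousOn.intervalIntegrable
      intro x hx
      rw [uIcc_of_le hab] at hx
      have hx0 : x ≠ 0 := (ha.trans_le hx.1).ne'
      apply ContinuousAt.continuousWithinAt
      fun_prop (disch := positivity)
  rw [h1]
  field_simp
  ring

lemma J_nonneg {a : ℝ} (ha : 0 < a) : 0 ≤ J a :=
  intervalIntegral.integral_nonneg (by linarith) fun u _ => by positivity

lemma inv_sq_int {a : ℝ} (ha : 0 < a) : IntervalIntegrable (fun u : ℝ => 1 / u ^ 2) volume a (2 * a) := by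
  apply ContinuousOn.intervalIntegrable
  intro x hx
  rw [uIcc_of_le (by linarith : a ≤ 2 * a)] at hx
  have hx0 : x ≠ 0 := (ha.trans_le hx.1).ne'
  apply ContinuousAt.continuousWithinAt
  fun_prop (disch := positivity)

lemma J_le {a lam : ℝ} (ha : 0 < a) (hl : 0 < lam) :
    J a ≤ (lam * I2 a (2 * a) + 1 / lam * (1 / (2 * a))) / 2 := by
  have hab : a ≤ 2 * a := by linarith
  have h1 : J a ≤ ∫ u in a..(2 * a), (lam / 2 * (M u / u) ^ 2 + 1 / lam / 2 * (1 / u ^ 2)) := by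
    apply intervalIntegral.integral_mono_on hab (M_abs_int ha hab)
      (((M_sq_int ha hab).const_mul _).add ((inv_sq_int ha).const_mul _))
    intro u hu
    have hu0 : 0 < u := ha.trans_le hu.1
    obtain ⟨p, hp⟩ : ∃ p : ℝ, p = |M u| / u := ⟨_, rfl⟩
    have e1 : (M u / u) ^ 2 = p ^ 2 := by
      rw [hp, div_pow, div_pow, sq_abs]
    have e2 : |M u| / u ^ 2 = p * (1 / u) := by
      rw [hp]
      field_simp
    have e3 : 1 / u ^ 2 = (1 / u) ^ 2 := by rw [div_pow, one_pow]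
    rw [e1, e2, e3]
    obtain ⟨q, hq⟩ : ∃ q : ℝ, q = 1 / u := ⟨_, rfl⟩
    rw [← hq]
    have h2 : 0 ≤ lam / 2 * (p - q / lam) ^ 2 := by positivity
    have h3 : lam / 2 * (p - q / lam) ^ 2 = lam / 2 * p ^ 2 + 1 / lam / 2 * q ^ 2 - p * q := by
      field_simp
      ring
    linarith
  rw [intervalIntegral.integral_add ((M_sq_int ha hab).const_mul _) ((inv_sq_int ha).const_mul _),
    intervalIntegral.integral_const_mul, intervalIntegral.integral_const_mul, int_inv_sq ha] at h1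
  unfold I2
  linarith

/-- `√(log a / a)` -/
noncomputable def ph (a : ℝ) : ℝ := √(Real.log a / a)

lemma ph_dbl {a : ℝ} (ha : 4 ≤ a) : ph (2 * a) ≤ 9 / 10 * ph a := by
  unfold ph
  have h1 : (9 / 10 : ℝ) * √(Real.log a / a) = √(81 / 100 * (Real.log a / a)) := by
    rw [Real.sqrt_mul (by norm_num)]
    congr 1
    rw [show (81 / 100 : ℝ) = (9 / 10) ^ 2 by norm_num, Real.sqrt_sq (by norm_num)]
  rw [h1]
  apply Real.sqrt_le_sqrt
  have ha0 : 0 < a := by linarith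
  rw [Real.log_mul (by norm_num) ha0.ne', mul_div_assoc', div_le_div_iff₀ (by positivity) ha0]
  have h2 : 2 * Real.log 2 ≤ Real.log a := by
    have h3 : Real.log 4 = 2 * Real.log 2 := by
      rw [show (4 : ℝ) = 2 ^ 2 by norm_num, Real.log_pow]
      norm_num
    rw [← h3]
    exact Real.log_le_log (by norm_num) ha
  have h4 : 0 < Real.log 2 := Real.log_pos (by norm_num)
  nlinarith

lemma J_small {a δ : ℝ} (ha : 4 ≤ a) (hδ : 0 < δ) (hD : I2 a (2 * a) ≤ δ ^ 2 * Real.log a) :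
    J a ≤ δ * ph a := by
  have ha0 : 0 < a := by linarith
  have hL : 0 < Real.log a := Real.log_pos (by linarith)
  obtain ⟨t, ht⟩ : ∃ t : ℝ, t = ph a := ⟨_, rfl⟩
  have ht0 : 0 < t := by
    rw [ht]
    unfold ph
    rw [Real.sqrt_pos]
    positivity
  have ht2 : t ^ 2 = Real.log a / a := by
    rw [ht]
    unfold ph
    rw [Real.sq_sqrt (by positivity)]
  have hla : Real.log a = t ^ 2 * a := by
    rw [ht2]
    field_simp
  have h1 := J_le (lam := 1 / (δ * t * a)) ha0 (by positivity)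
  rw [← ht]
  have h2 : 1 / (δ * t * a) * I2 a (2 * a) ≤ δ * t := by
    calc 1 / (δ * t * a) * I2 a (2 * a) ≤ 1 / (δ * t * a) * (δ ^ 2 * Real.log a) := by gcongr
      _ = δ * t := by
        rw [hla]
        field_simp
  have h3 : 1 / (1 / (δ * t * a)) * (1 / (2 * a)) = δ * t / 2 := by
    field_simp
  rw [h3] at h1
  have h4 : 0 < δ * t := by positivity
  linarith

lemma T_step {a : ℝ} (ha : 0 < a) : |Y a / a| ≤ |Y (2 * a) / (2 * a)| + J a := by
  have hab : a ≤ 2 * a := by linarith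
  have h1 := T_diff ha hab
  have h2 : |∫ u in a..(2 * a), M u / u ^ 2| ≤ J a := by
    refine (intervalIntegral.abs_integral_le_integral_abs hab).trans (le_of_eq ?_)
    unfold J
    congr 1
    funext u
    rw [abs_div, abs_of_nonneg (sq_nonneg u)]
  rw [h1] at h2
  have h3 := abs_sub_abs_le_abs_sub (Y a / a) (Y (2 * a) / (2 * a))
  rw [abs_sub_comm] at h3
  linarith

lemma iter {a0 δ : ℝ} (ha0 : 4 ≤ a0) (hδ : 0 ≤ δ) (hJ : ∀ a : ℝ, a0 ≤ a → J a ≤ δ * ph a) (n : ℕ) :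
    ∀ a : ℝ, a0 ≤ a → |Y a / a| - 10 * δ * ph a ≤
      |Y (2 ^ n * a) / (2 ^ n * a)| - 10 * δ * ph (2 ^ n * a) := by
  induction n with
  | zero => intro a _; simp
  | succ n ih =>
    intro a ha
    have h1 := ih (2 * a) (by linarith)
    rw [show (2:ℝ) ^ n * (2 * a) = 2 ^ (n + 1) * a by ring] at h1
    refine le_trans ?_ h1
    have h2 := T_step (a := a) (by linarith)
    have h3 := hJ a ha
    have h4 := mul_le_mul_of_nonneg_left (ph_dbl (ha0.trans ha)) hδ
    linarith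

lemma pow_top {a : ℝ} (ha : 0 < a) : Tendsto (fun n : ℕ => (2:ℝ) ^ n * a) atTop atTop :=
  (tendsto_pow_atTop_atTop_of_one_lt (by norm_num)).atTop_mul_const ha

lemma T_le {a0 δ : ℝ} (ha0 : 4 ≤ a0) (hδ : 0 ≤ δ) (hJ : ∀ a : ℝ, a0 ≤ a → J a ≤ δ * ph a)
    (hT : Tendsto (fun x : ℝ => Y x / x) atTop (𝓝 0)) {a : ℝ} (ha : a0 ≤ a) :
    |Y a / a| ≤ 10 * δ * ph a := by
  have h1 : ∀ n : ℕ, |Y a / a| - 10 * δ * ph a ≤ |Y (2 ^ n * a) / (2 ^ n * a)| := by
    intro n
    have h2 := iter ha0 hδ hJ n a ha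
    have h3 : 0 ≤ 10 * δ * ph (2 ^ n * a) := by
      unfold ph
      positivity
    linarith
  have h4 := (hT.comp (pow_top (show 0 < a by linarith))).abs
  rw [abs_zero] at h4
  have h5 := ge_of_tendsto' h4 h1
  linarith

lemma A_bdd {a0 δ : ℝ} (ha0 : 4 ≤ a0) (hδ : 0 ≤ δ) (hJ : ∀ a : ℝ, a0 ≤ a → J a ≤ δ * ph a) (n : ℕ) :
    (∫ u in (1:ℝ)..(2 ^ n * a0), |M u| / u ^ 2) + 10 * δ * ph (2 ^ n * a0) ≤
      (∫ u in (1:ℝ)..a0, |M u| / u ^ 2) + 10 * δ * ph a0 := by
  induction n with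
  | zero => simp
  | succ n ih =>
    refine le_trans ?_ ih
    obtain ⟨b, hb⟩ : ∃ b : ℝ, b = 2 ^ n * a0 := ⟨_, rfl⟩
    have hb0 : a0 ≤ b := by
      rw [hb]
      have : (1:ℝ) ≤ 2 ^ n := one_le_pow₀ (by norm_num)
      nlinarith
    rw [show (2:ℝ) ^ (n + 1) * a0 = 2 * b by rw [hb]; ring, ← hb]
    have h1 : ∫ u in (1:ℝ)..(2 * b), |M u| / u ^ 2 = (∫ u in (1:ℝ)..b, |M u| / u ^ 2) + J b := by
      unfold J
      exact (intervalIntegral.integral_add_adjacent_intervals (M_abs_int one_pos (by linarith))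
        (M_abs_int (by linarith) (by linarith))).symm
    rw [h1]
    have h3 := hJ b hb0
    have h4 := mul_le_mul_of_nonneg_left (ph_dbl (ha0.trans hb0)) hδ
    have h5 : 0 ≤ δ * ph b := mul_nonneg hδ (Real.sqrt_nonneg _)
    linarith

theorem M_integrable {a0 δ : ℝ} (ha0 : 4 ≤ a0) (hδ : 0 ≤ δ) (hJ : ∀ a : ℝ, a0 ≤ a → J a ≤ δ * ph a) :
    IntegrableOn (fun u => M u / u ^ 2) (Ioi 1) := by
  refine integrableOn_Ioi_of_intervalIntegral_norm_bounded (l := atTop) (b := fun n : ℕ => (2:ℝ) ^ n * a0)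
    ((∫ u in (1:ℝ)..a0, |M u| / u ^ 2) + 10 * δ * ph a0) 1 (fun n => ?_) (pow_top (by linarith))
    (Eventually.of_forall fun n => ?_)
  · have h1 : (1:ℝ) ≤ 2 ^ n * a0 := by
      have : (1:ℝ) ≤ 2 ^ n := one_le_pow₀ (by norm_num)
      nlinarith
    exact (intervalIntegrable_iff_integrableOn_Ioc_of_le h1).1 (M_int one_pos h1)
  · have h1 := A_bdd ha0 hδ hJ n
    have h2 : 0 ≤ 10 * δ * ph (2 ^ n * a0) := by
      unfold ph
      positivity
    have e : (fun u : ℝ => ‖M u / u ^ 2‖) = fun u => |M u| / u ^ 2 := by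
      funext u
      rw [Real.norm_eq_abs, abs_div, abs_of_nonneg (sq_nonneg u)]
    rw [e]
    linarith

end Pool.Agent.R754.LM
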