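import Pool.Agent.R754.LM.B

set_option autoImplicit false

/-! # `∫_1^∞ M(u) u^{-2} du = 0` -/

namespace Pool.Agent.R754.LM

open MeasureTheory Filter Topology Set

/-- `1 + 1/(n+1)` -/
noncomputable def sn (n : ℕ) : ℝ := 1 + 1 / ((n : ℝ) + 1)

lemma sn_gt (n : ℕ) : 1 < sn n := by
  unfold sn
  have : 0 < 1 / ((n : ℝ) + 1) := by positivity
  linarith

lemma sn_lim : Tendsto sn atTop (𝓝 1) := by
  have := tendsto_one_div_add_atTop_nhds_zero_nat (𝕜 := ℝ)
  have h := this.const_add 1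
  rw [add_zero] at h
  exact h

lemma snC_lim : Tendsto (fun n => ((sn n : ℝ) : ℂ)) atTop (𝓝 1) := by
  have := (Complex.continuous_ofReal.tendsto 1).comp sn_lim
  rw [Complex.ofReal_one] at this
  exact this

lemma zeta_inv_lim : Tendsto (fun n => (riemannZeta ((sn n : ℝ) : ℂ))⁻¹) atTop (𝓝 0) := by
  have h1 : Tendsto (fun n => ((sn n : ℝ) : ℂ)) atTop (𝓝[≠] 1) := by
    rw [tendsto_nhdsWithin_iff]
    refine ⟨snC_lim, Eventually.of_forall fun n => ?_⟩
    rw [mem_compl_iff, mem_singleton_iff]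
    intro h
    have h2 : sn n = 1 := by exact_mod_cast h
    linarith [sn_gt n]
  have h2 := riemannZeta_residue_one.comp h1
  have h3 : Tendsto (fun n => ((sn n : ℝ) : ℂ) - 1) atTop (𝓝 0) := by
    have := snC_lim.sub_const 1
    rwa [sub_self] at this
  have h4 := h3.div h2 one_ne_zero
  rw [zero_div] at h4
  refine h4.congr fun n => ?_
  simp only [Function.comp, Pi.div_apply]
  have h5 : ((sn n : ℝ) : ℂ) - 1 ≠ 0 := by
    intro h
    have h6 : ((sn n : ℝ) : ℂ) = 1 := by linear_combination h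
    have h7 : sn n = 1 := by exact_mod_cast h6
    linarith [sn_gt n]
  rw [← div_div, div_self h5, one_div]

lemma Mu_isBigO : (fun n : ℕ => ∑ k ∈ Finset.Icc 1 n, ((ArithmeticFunction.moebius k : ℤ) : ℂ)) =O[atTop]
    fun n : ℕ => (n : ℝ) ^ (1 : ℝ) := by
  refine Asymptotics.isBigO_of_le _ fun n => ?_
  rw [Real.rpow_one, Real.norm_of_nonneg (Nat.cast_nonneg n)]
  refine (norm_sum_le _ _).trans ?_
  calc ∑ k ∈ Finset.Icc 1 n, ‖((ArithmeticFunction.moebius k : ℤ) : ℂ)‖ ≤ ∑ k ∈ Finset.Icc 1 n, 1 := by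
        refine Finset.sum_le_sum fun k _ => ?_
        rw [Complex.norm_intCast]
        exact_mod_cast ArithmeticFunction.abs_moebius_le_one
    _ = n := by simp

lemma L_mu (n : ℕ) : (riemannZeta ((sn n : ℝ) : ℂ))⁻¹ = ((sn n : ℝ) : ℂ) *
    ∫ t in Ioi (1 : ℝ), (∑ k ∈ Finset.Icc 1 ⌊t⌋₊, ((ArithmeticFunction.moebius k : ℤ) : ℂ)) *
      (t : ℂ) ^ (-(((sn n : ℝ) : ℂ) + 1)) := by
  have hs : 1 < (((sn n : ℝ) : ℂ)).re := by
    rw [Complex.ofReal_re]
    exact sn_gt n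
  have h1 := LSeries_eq_mul_integral (fun k => ((ArithmeticFunction.moebius k : ℤ) : ℂ)) zero_le_one hs
    (ArithmeticFunction.LSeriesSummable_moebius_iff.2 hs) Mu_isBigO
  rw [← h1]
  have h2 := ArithmeticFunction.LSeries_zeta_mul_Lseries_moebius hs
  rw [ArithmeticFunction.LSeries_zeta_eq_riemannZeta hs] at h2
  exact (eq_inv_of_mul_eq_one_right h2).symm

theorem int_zero (hint : IntegrableOn (fun u => M u / u ^ 2) (Ioi 1)) : ∫ u in Ioi (1:ℝ), M u / u ^ 2 = 0 := by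
  have h1 : Tendsto (fun n : ℕ => ∫ t in Ioi (1 : ℝ), (∑ k ∈ Finset.Icc 1 ⌊t⌋₊,
      ((ArithmeticFunction.moebius k : ℤ) : ℂ)) * (t : ℂ) ^ (-(((sn n : ℝ) : ℂ) + 1))) atTop
      (𝓝 (∫ t in Ioi (1 : ℝ), ((M t / t ^ 2 : ℝ) : ℂ))) := by
    refine tendsto_integral_of_dominated_convergence (fun t => ‖M t / t ^ 2‖) (fun n => ?_) hint.norm
      (fun n => ?_) ?_
    · refine AEStronglyMeasurable.mul ?_ ?_
      · have e : (fun t : ℝ => ∑ k ∈ Finset.Icc 1 ⌊t⌋₊, ((ArithmeticFunction.moebius k : ℤ) : ℂ)) =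
            (fun n : ℕ => ∑ k ∈ Finset.Icc 1 n, ((ArithmeticFunction.moebius k : ℤ) : ℂ)) ∘ fun y : ℝ => ⌊y⌋₊ := rfl
        rw [e]
        exact ((measurable_of_countable _).comp Nat.measurable_floor).aestronglyMeasurable
      · have : Measurable fun t : ℝ => (t : ℂ) ^ (-(((sn n : ℝ) : ℂ) + 1)) :=
          Complex.measurable_ofReal.pow_const _
        exact this.aestronglyMeasurable
    · refine (ae_restrict_mem measurableSet_Ioi).mono fun t ht => ?_
      have ht1 : (1:ℝ) < t := ht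
      have ht0 : 0 < t := by linarith
      have e1 : (∑ k ∈ Finset.Icc 1 ⌊t⌋₊, ((ArithmeticFunction.moebius k : ℤ) : ℂ)) = ((M t : ℝ) : ℂ) := by
        unfold M mu
        push_cast
        rfl
      rw [e1, norm_mul, Complex.norm_real, norm_div, Complex.norm_cpow_eq_rpow_re_of_pos ht0]
      have e2 : (-(((sn n : ℝ) : ℂ) + 1)).re = -(sn n + 1) := by
        simp
      rw [e2, div_eq_mul_inv]
      apply mul_le_mul_of_nonneg_left _ (norm_nonneg _)
      rw [Real.norm_of_nonneg (by positivity : (0:ℝ) ≤ t ^ 2)]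
      have e3 : (t ^ 2)⁻¹ = t ^ (-(2:ℝ)) := by
        rw [Real.rpow_neg ht0.le]
        norm_num
      rw [e3]
      apply Real.rpow_le_rpow_of_exponent_le ht1.le
      linarith [sn_gt n]
    · refine (ae_restrict_mem measurableSet_Ioi).mono fun t ht => ?_
      have ht1 : (1:ℝ) < t := ht
      have ht0 : 0 < t := by linarith
      have htC : (t : ℂ) ≠ 0 := by exact_mod_cast ht0.ne'
      have e1 : (∑ k ∈ Finset.Icc 1 ⌊t⌋₊, ((ArithmeticFunction.moebius k : ℤ) : ℂ)) = ((M t : ℝ) : ℂ) := by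
        unfold M mu
        push_cast
        rfl
      rw [e1]
      have h2 : Tendsto (fun n : ℕ => (t : ℂ) ^ (-(((sn n : ℝ) : ℂ) + 1))) atTop
          (𝓝 ((t : ℂ) ^ (-((1 : ℂ) + 1)))) := by
        have h3 : Tendsto (fun n : ℕ => -(((sn n : ℝ) : ℂ) + 1)) atTop (𝓝 (-((1 : ℂ) + 1))) :=
          (snC_lim.add_const 1).neg
        exact (continuousAt_const_cpow htC).tendsto.comp h3
      have h4 : ((M t / t ^ 2 : ℝ) : ℂ) = ((M t : ℝ) : ℂ) * (t : ℂ) ^ (-((1 : ℂ) + 1)) := by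
        rw [show -((1 : ℂ) + 1) = -(2 : ℂ) by norm_num, Complex.cpow_neg]
        push_cast
        rw [div_eq_mul_inv]
        congr 2
        exact (Complex.cpow_ofNat (t : ℂ) 2).symm
      rw [h4]
      exact h2.const_mul _
  have h2 : Tendsto (fun n : ℕ => ∫ t in Ioi (1 : ℝ), (∑ k ∈ Finset.Icc 1 ⌊t⌋₊,
      ((ArithmeticFunction.moebius k : ℤ) : ℂ)) * (t : ℂ) ^ (-(((sn n : ℝ) : ℂ) + 1))) atTop (𝓝 0) := by
    have h3 := zeta_inv_lim.div snC_lim one_ne_zero
    rw [zero_div] at h3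
    refine h3.congr fun n => ?_
    simp only [Pi.div_apply]
    rw [L_mu n]
    have h5 : ((sn n : ℝ) : ℂ) ≠ 0 := by
      have : sn n ≠ 0 := by linarith [sn_gt n]
      exact_mod_cast this
    rw [mul_div_cancel_left₀ _ h5]
  have h3 := tendsto_nhds_unique h1 h2
  have h4 : ((∫ u in Ioi (1:ℝ), M u / u ^ 2 : ℝ) : ℂ) = 0 := by
    rw [← integral_complex_ofReal]
    exact h3
  exact_mod_cast h4

theorem T_zero (hint : IntegrableOn (fun u => M u / u ^ 2) (Ioi 1)) :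
    Tendsto (fun x : ℝ => Y x / x) atTop (𝓝 0) := by
  have h1 := intervalIntegral_tendsto_integral_Ioi 1 hint tendsto_id
  rw [int_zero hint] at h1
  refine h1.congr' ?_
  filter_upwards [eventually_ge_atTop (1:ℝ)] with x hx
  simp only [id]
  rw [T_diff one_pos hx, Y_one]
  simp

end Pool.Agent.R754.LM
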