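import Pool.Agent.R754.LM.C
import Pool.Agent.R754.WX.G3

set_option autoImplicit false

/-! # The mean square of `√u ∑_{n ≤ u} μ(n)/n` -/

namespace Pool.Agent.R754.LM

open MeasureTheory Filter Topology Set
open Pool.Agent.W120.WM (ZC NT)
open Pool.Agent.TH223.AP (WM WM_iff_ZC)

lemma I2_eq (x : ℝ) : I2 1 x = Pool.Agent.W120.WM.msq 1 x := rfl

lemma I2_lim (hZ : ZC) : Tendsto (fun x : ℝ => I2 1 x / Real.log x) atTop
    (𝓝 (∑' ρ : NT, 1 / ‖(ρ : ℂ) * deriv riemannZeta ρ‖ ^ 2)) := by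
  have h1 := (Pool.Agent.W120.WM.final3 1 one_pos le_rfl).1 hZ
  rw [one_mul] at h1
  refine h1.congr fun x => ?_
  rw [sub_self, Real.rpow_zero, I2_eq]

lemma I2_top (hZ : ¬ ZC) : Tendsto (fun x : ℝ => I2 1 x / Real.log x) atTop atTop := by
  have h1 := (Pool.Agent.W120.WM.final3 1 one_pos le_rfl).2 hZ
  refine h1.congr fun x => ?_
  rw [sub_self, Real.rpow_zero, I2_eq]

lemma log_ratio : Tendsto (fun a : ℝ => Real.log (2 * a) / Real.log a) atTop (𝓝 1) := by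
  have h1 : Tendsto (fun a : ℝ => Real.log 2 / Real.log a + 1) atTop (𝓝 (0 + 1)) :=
    (Tendsto.div_atTop tendsto_const_nhds Real.tendsto_log_atTop).add_const 1
  rw [zero_add] at h1
  refine h1.congr' ?_
  filter_upwards [eventually_gt_atTop (1:ℝ)] with a ha
  have hL : 0 < Real.log a := Real.log_pos ha
  rw [Real.log_mul (by norm_num) (by linarith)]
  field_simp

lemma I2_split {a : ℝ} (ha : 1 ≤ a) : I2 a (2 * a) = I2 1 (2 * a) - I2 1 a := by
  unfold I2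
  rw [← intervalIntegral.integral_add_adjacent_intervals (M_sq_int one_pos ha)
    (M_sq_int (by linarith) (by linarith : a ≤ 2 * a))]
  ring

lemma dbl_lim {S : ℝ} (h : Tendsto (fun x : ℝ => I2 1 x / Real.log x) atTop (𝓝 S)) :
    Tendsto (fun a : ℝ => I2 a (2 * a) / Real.log a) atTop (𝓝 0) := by
  have h1 : Tendsto (fun a : ℝ => 2 * a) atTop atTop := tendsto_id.const_mul_atTop (by norm_num)
  have h2 := ((h.comp h1).mul log_ratio).sub h
  rw [mul_one, sub_self] at h2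
  refine h2.congr' ?_
  filter_upwards [eventually_gt_atTop (1:ℝ)] with a ha
  have hL : 0 < Real.log a := Real.log_pos ha
  have hL2 : 0 < Real.log (2 * a) := Real.log_pos (by linarith)
  simp only [Function.comp]
  rw [I2_split ha.le]
  field_simp

lemma J_ev {S : ℝ} (h : Tendsto (fun x : ℝ => I2 1 x / Real.log x) atTop (𝓝 S)) {δ : ℝ} (hδ : 0 < δ) :
    ∃ a0 : ℝ, 4 ≤ a0 ∧ ∀ a : ℝ, a0 ≤ a → J a ≤ δ * ph a := by
  have h1 := (dbl_lim h).eventually (gt_mem_nhds (show (0:ℝ) < δ ^ 2 by positivity))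
  obtain ⟨b, hb⟩ := eventually_atTop.1 h1
  refine ⟨max b 4, le_max_right _ _, fun a ha => ?_⟩
  have ha4 : 4 ≤ a := (le_max_right _ _).trans ha
  have h2 := hb a ((le_max_left _ _).trans ha)
  have hL : 0 < Real.log a := Real.log_pos (by linarith)
  rw [div_lt_iff₀ hL] at h2
  exact J_small ha4 hδ h2.le

theorem key {S : ℝ} (h : Tendsto (fun x : ℝ => I2 1 x / Real.log x) atTop (𝓝 S)) :
    Tendsto (fun x : ℝ => Y x ^ 2 / x / Real.log x) atTop (𝓝 0) := by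
  have hT : Tendsto (fun x : ℝ => Y x / x) atTop (𝓝 0) := by
    obtain ⟨a0, h1, h2⟩ := J_ev h one_pos
    exact T_zero (M_integrable h1 zero_le_one h2)
  rw [Metric.tendsto_nhds]
  intro ε hε
  obtain ⟨δ, hδ⟩ : ∃ δ : ℝ, δ = √(ε / 200) := ⟨_, rfl⟩
  have hδ0 : 0 < δ := by
    rw [hδ, Real.sqrt_pos]
    positivity
  have hδ2 : δ ^ 2 = ε / 200 := by
    rw [hδ, Real.sq_sqrt (by positivity)]
  obtain ⟨a0, h1, h2⟩ := J_ev h hδ0
  filter_upwards [eventually_ge_atTop a0] with a ha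
  have ha0 : 0 < a := by linarith
  have hL : 0 < Real.log a := Real.log_pos (by linarith)
  have h3 := T_le h1 hδ0.le h2 hT ha
  have h4 : (Y a / a) ^ 2 ≤ 100 * δ ^ 2 * (Real.log a / a) := by
    have h5 : ph a ^ 2 = Real.log a / a := by
      unfold ph
      rw [Real.sq_sqrt (by positivity)]
    rw [← sq_abs]
    calc |Y a / a| ^ 2 ≤ (10 * δ * ph a) ^ 2 := pow_le_pow_left₀ (abs_nonneg _) h3 2
      _ = 100 * δ ^ 2 * (Real.log a / a) := by rw [← h5]; ring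
  rw [Real.dist_eq, sub_zero, abs_of_nonneg (by positivity)]
  have h6 : Y a ^ 2 / a / Real.log a = (Y a / a) ^ 2 * (a / Real.log a) := by
    field_simp
  rw [h6]
  calc (Y a / a) ^ 2 * (a / Real.log a) ≤ 100 * δ ^ 2 * (Real.log a / a) * (a / Real.log a) :=
        mul_le_mul_of_nonneg_right h4 (by positivity)
    _ = 100 * δ ^ 2 := by field_simp
    _ < ε := by rw [hδ2]; linarith

/-- `∫_1^x m(u)² du` -/
noncomputable def Im (x : ℝ) : ℝ := ∫ u in (1:ℝ)..x, m u ^ 2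

lemma Im_eq {x : ℝ} (hx : 1 ≤ x) : Im x = I2 1 x + Y x ^ 2 / x := by
  unfold Im I2
  rw [energy one_pos hx, Y_one]
  ring

lemma Im_yes (hZ : ZC) : Tendsto (fun x : ℝ => Im x / Real.log x) atTop
    (𝓝 (∑' ρ : NT, 1 / ‖(ρ : ℂ) * deriv riemannZeta ρ‖ ^ 2)) := by
  have h1 := (I2_lim hZ).add (key (I2_lim hZ))
  rw [add_zero] at h1
  refine h1.congr' ?_
  filter_upwards [eventually_ge_atTop (1:ℝ)] with x hx
  rw [Im_eq hx]
  ring

lemma Im_ge {x : ℝ} (hx : 1 ≤ x) : I2 1 x ≤ Im x := by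
  rw [Im_eq hx]
  have : 0 ≤ Y x ^ 2 / x := by positivity
  linarith

lemma Im_no (hZ : ¬ ZC) : Tendsto (fun x : ℝ => Im x / Real.log x) atTop atTop := by
  refine tendsto_atTop_mono' atTop ?_ (I2_top hZ)
  filter_upwards [eventually_gt_atTop (1:ℝ)] with x hx
  exact div_le_div_of_nonneg_right (Im_ge hx.le) (Real.log_nonneg hx.le)

lemma Im_mono {x y : ℝ} (hx : 1 ≤ x) (hxy : x ≤ y) : Im x ≤ Im y := by
  unfold Im
  rw [← intervalIntegral.integral_add_adjacent_intervals (m_sq_int zero_le_one hx)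
    (m_sq_int (by linarith) hxy)]
  have : 0 ≤ ∫ u in x..y, m u ^ 2 := intervalIntegral.integral_nonneg hxy fun u _ => by positivity
  linarith

lemma Im_bound (hZ : ZC) : ∃ C : ℝ, ∀ x : ℝ, 2 ≤ x → Im x ≤ C * Real.log x := by
  have h1 := Im_yes hZ
  obtain ⟨c, hc⟩ : ∃ c : ℝ, c = ∑' ρ : NT, 1 / ‖(ρ : ℂ) * deriv riemannZeta ρ‖ ^ 2 := ⟨_, rfl⟩
  rw [← hc] at h1
  obtain ⟨x0, hx0⟩ := eventually_atTop.1 (h1.eventually (gt_mem_nhds (lt_add_one c)))
  obtain ⟨X, hX⟩ : ∃ X : ℝ, X = max x0 2 := ⟨_, rfl⟩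
  have hX2 : 2 ≤ X := by rw [hX]; exact le_max_right _ _
  have hX0 : x0 ≤ X := by rw [hX]; exact le_max_left _ _
  obtain ⟨B, hB⟩ : ∃ B : ℝ, B = Im X := ⟨_, rfl⟩
  have hB0 : 0 ≤ B := by
    rw [hB]
    exact intervalIntegral.integral_nonneg (by linarith) fun u _ => by positivity
  have hl2 : 0 < Real.log 2 := Real.log_pos (by norm_num)
  refine ⟨|c + 1| + B / Real.log 2, fun x hx => ?_⟩
  have hlx : Real.log 2 ≤ Real.log x := Real.log_le_log (by norm_num) hx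
  have hlx0 : 0 < Real.log x := by linarith
  rcases le_or_gt X x with h | h
  · have h2 := hx0 x (hX0.trans h)
    rw [div_lt_iff₀ hlx0] at h2
    have h3 : (c + 1) * Real.log x ≤ |c + 1| * Real.log x := by
      gcongr
      exact le_abs_self _
    have h4 : 0 ≤ B / Real.log 2 * Real.log x := by positivity
    nlinarith
  · have h2 := Im_mono (x := x) (y := X) (by linarith) h.le
    rw [← hB] at h2
    have h3 : B ≤ B / Real.log 2 * Real.log x := by
      rw [div_mul_eq_mul_div, le_div_iff₀ hl2]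
      gcongr
    have h4 : 0 ≤ |c + 1| * Real.log x := by positivity
    nlinarith

theorem main :
    (WM ↔ ∃ C : ℝ, ∀ x : ℝ, 2 ≤ x → Im x ≤ C * Real.log x) ∧
    (WM ↔ ∃ C : ℝ, ∃ᶠ x : ℝ in atTop, Im x ≤ C * Real.log x) := by
  have e2 : (∃ C : ℝ, ∃ᶠ x : ℝ in atTop, Im x ≤ C * Real.log x) → WM := by
    rintro ⟨C, hC⟩
    by_contra hW
    have hZ : ¬ ZC := fun h => hW (WM_iff_ZC.2 h)
    obtain ⟨x, h2, h3, h4⟩ := (hC.and_eventually
      (((Im_no hZ).eventually (eventually_gt_atTop C)).and (eventually_gt_atTop (1:ℝ)))).exists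
    have : 0 < Real.log x := Real.log_pos h4
    rw [lt_div_iff₀ this] at h3
    linarith
  have e3 : WM → ∃ C : ℝ, ∀ x : ℝ, 2 ≤ x → Im x ≤ C * Real.log x := fun h => Im_bound (WM_iff_ZC.1 h)
  have e1 : (∃ C : ℝ, ∀ x : ℝ, 2 ≤ x → Im x ≤ C * Real.log x) →
      ∃ C : ℝ, ∃ᶠ x : ℝ in atTop, Im x ≤ C * Real.log x := by
    rintro ⟨C, hC⟩
    exact ⟨C, (eventually_atTop.2 ⟨2, hC⟩).frequently⟩
  exact ⟨⟨e3, fun h => e2 (e1 h)⟩, ⟨fun h => e1 (e3 h), e2⟩⟩

end Pool.Agent.R754.LM
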